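import Pool.Agent.Helper89.Vol4.Goals

/-! Packet V47-J3 (project V47, MP_cd13d2_co): the planar inequality `G_J3`. -/

namespace Pool.Agent.Helper85.Vol4.PkJ3

open Set

/-- Case A: `M0 g2 ≤ N g1`. -/
theorem caseA (N k M g1 g2 S M0 : ℝ) (hN : 0 ≤ N) (hN2 : N ≤ 1 / 2) (hk : 0 ≤ k) (hM : 0 ≤ M)
    (hg1 : 0 ≤ g1) (hg2 : 0 ≤ g2) (hS : 0 ≤ S) (h1 : (k + N) ^ 2 + M ^ 2 ≤ 1)
    (h2 : g1 ^ 2 + g2 ^ 2 ≤ 1 / 2) (h3 : S ^ 2 + g1 ^ 2 + g2 ^ 2 + 4 * N ^ 2 + 4 * N * g1 ≤ 3)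
    (hM0 : 0 < M0) (hM0s : M0 ^ 2 = 1 - N ^ 2) (hA : M0 * g2 ≤ N * g1) :
    k * g2 + M * g1 + N * S ≤ 1.04 := by
  have e1 : M * M0 ≤ M0 ^ 2 - k * N := by
    have hpos : 0 ≤ M0 ^ 2 - k * N := by
      have : 0 ≤ k * N := mul_nonneg hk hN
      nlinarith [sq_nonneg M, sq_nonneg k]
    have hsq : (M * M0) ^ 2 ≤ (M0 ^ 2 - k * N) ^ 2 := by
      have hM2 : M ^ 2 ≤ M0 ^ 2 - 2 * k * N - k ^ 2 := by nlinarith
      have : (M * M0) ^ 2 ≤ (M0 ^ 2 - 2 * k * N - k ^ 2) * M0 ^ 2 := by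
        rw [mul_pow]
        exact mul_le_mul_of_nonneg_right hM2 (sq_nonneg M0)
      nlinarith [sq_nonneg (k * M0), sq_nonneg (k * N)]
    exact abs_le_of_sq_le_sq' hsq hpos |>.2
  have e2 : k * g2 + M * g1 ≤ M0 * g1 := by
    have : M0 * (k * g2 + M * g1) ≤ M0 * (M0 * g1) := by
      have a1 : k * (M0 * g2) ≤ k * (N * g1) := mul_le_mul_of_nonneg_left hA hk
      have a2 : (M * M0) * g1 ≤ (M0 ^ 2 - k * N) * g1 := mul_le_mul_of_nonneg_right e1 hg1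
      nlinarith
    exact le_of_mul_le_mul_left this hM0
  have hγ : g1 ≤ 0.7072 := by
    by_contra hc
    push Not at hc
    nlinarith [sq_nonneg g2]
  have hSq : S ^ 2 ≤ 3 - (g1 + 2 * N) ^ 2 := by nlinarith [sq_nonneg g2]
  have e3 : S ≤ (4.1449 - (g1 + 2 * N) ^ 2) / 2.14 := by
    rw [le_div_iff₀ (by norm_num)]
    nlinarith [sq_nonneg (S - 1.07)]
  have e4 : N * S ≤ N * ((4.1449 - (g1 + 2 * N) ^ 2) / 2.14) := mul_le_mul_of_nonneg_left e3 hN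
  have hM0l : 0.86 ≤ M0 := by
    by_contra hc
    push Not at hc
    nlinarith
  have e5 : M0 * g1 + N * ((4.1449 - (g1 + 2 * N) ^ 2) / 2.14) ≤
      M0 * 0.7072 + N * ((4.1449 - (0.7072 + 2 * N) ^ 2) / 2.14) := by
    have b1 : 0 ≤ M0 - (N / 2.14) * (0.7072 + g1 + 4 * N) := by
      have : N * (0.7072 + g1 + 4 * N) ≤ (1 / 2) * (0.7072 + 0.7072 + 4 * (1 / 2)) := by
        apply mul_le_mul hN2 (by linarith) (by positivity) (by norm_num)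
      have h' : (N / 2.14) * (0.7072 + g1 + 4 * N) = N * (0.7072 + g1 + 4 * N) / 2.14 := by ring
      rw [h']
      have : N * (0.7072 + g1 + 4 * N) / 2.14 ≤ 0.8 := by
        rw [div_le_iff₀ (by norm_num)]
        linarith
      linarith
    have b2 : 0 ≤ (0.7072 - g1) * (M0 - (N / 2.14) * (0.7072 + g1 + 4 * N)) :=
      mul_nonneg (by linarith) b1
    have b3 : M0 * 0.7072 + N * ((4.1449 - (0.7072 + 2 * N) ^ 2) / 2.14) -
      (M0 * g1 + N * ((4.1449 - (g1 + 2 * N) ^ 2) / 2.14)) =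
      (0.7072 - g1) * (M0 - (N / 2.14) * (0.7072 + g1 + 4 * N)) := by ring
    linarith
  have e6 : M0 ≤ (1.893025 - N ^ 2) / 1.89 := by
    rw [le_div_iff₀ (by norm_num)]
    nlinarith [sq_nonneg (M0 - 0.945)]
  have e7 : (1.893025 - N ^ 2) / 1.89 * 0.7072 + N * ((4.1449 - (0.7072 + 2 * N) ^ 2) / 2.14) ≤
      1.03 := by
    have c1 : 0 ≤ (N - 163 / 500) ^ 2 * (N + 3 / 2) := by positivity
    have c2 : 0 ≤ (N - 163 / 500) ^ 2 := sq_nonneg _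
    have c3 : (1.893025 - N ^ 2) / 1.89 * 0.7072 + N * ((4.1449 - (0.7072 + 2 * N) ^ 2) / 2.14) =
      (16734341/23625000) + (22779801/13375000) * N + (-171496/101115) * N ^ 2 +
        (-200/107) * N ^ 3 := by ring
    rw [c3, show (1.03 : ℝ) = 103 / 100 by norm_num]
    nlinarith
  linarith

/-- Case B: `N g1 ≤ g2`. -/
theorem caseB (N k M g1 g2 S : ℝ) (hN : 0 ≤ N) (hN2 : N ≤ 1 / 2) (hk : 0 ≤ k) (hM : 0 ≤ M)
    (hg1 : 0 ≤ g1) (hg2 : 0 ≤ g2) (hS : 0 ≤ S) (h1 : (k + N) ^ 2 + M ^ 2 ≤ 1)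
    (h2 : g1 ^ 2 + g2 ^ 2 ≤ 1 / 2) (h3 : S ^ 2 + g1 ^ 2 + g2 ^ 2 + 4 * N ^ 2 + 4 * N * g1 ≤ 3)
    (hB : N * g1 ≤ g2) :
    k * g2 + M * g1 + N * S ≤ 1.04 := by
  obtain ⟨G, hG0, hGs⟩ : ∃ G : ℝ, 0 ≤ G ∧ G ^ 2 = g1 ^ 2 + g2 ^ 2 :=
    ⟨√(g1 ^ 2 + g2 ^ 2), Real.sqrt_nonneg _, Real.sq_sqrt (by positivity)⟩
  have hγ : G ≤ 0.7072 := by
    by_contra hc
    push Not at hc
    nlinarith
  have e1 : (k + N) * g2 + M * g1 ≤ G := by
    have : ((k + N) * g2 + M * g1) ^ 2 ≤ G ^ 2 := by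
      have c1 : ((k + N) * g2 + M * g1) ^ 2 ≤ ((k + N) ^ 2 + M ^ 2) * (g1 ^ 2 + g2 ^ 2) := by
        nlinarith [sq_nonneg ((k + N) * g1 - M * g2)]
      have c2 : ((k + N) ^ 2 + M ^ 2) * (g1 ^ 2 + g2 ^ 2) ≤ 1 * (g1 ^ 2 + g2 ^ 2) :=
        mul_le_mul_of_nonneg_right h1 (by positivity)
      linarith
    exact abs_le_of_sq_le_sq' this hG0 |>.2
  have e2 : S ≤ (4.21 - G ^ 2 - 4 * N ^ 2 - 4 * N * g1) / 2.2 := by
    rw [le_div_iff₀ (by norm_num)]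
    nlinarith [sq_nonneg (S - 1.1)]
  have e3 : N * S ≤ N * ((4.21 - G ^ 2 - 4 * N ^ 2 - 4 * N * g1) / 2.2) :=
    mul_le_mul_of_nonneg_left e2 hN
  have e4 : k * g2 + M * g1 + N * S ≤
      G - N * (g2 + (2 * N / 1.1) * g1) + (N / 2.2) * (4.21 - G ^ 2 - 4 * N ^ 2) := by
    have : N * ((4.21 - G ^ 2 - 4 * N ^ 2 - 4 * N * g1) / 2.2) =
      (N / 2.2) * (4.21 - G ^ 2 - 4 * N ^ 2) - N * ((2 * N / 1.1) * g1) := by ring
    nlinarith
  rcases le_total N (5 / 13) with hc | hc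
  · -- N ≤ 5/13
    have e5 : 2.6 * N * G ≤ g2 + (2 * N / 1.1) * g1 := by
      have hp : 0 ≤ g2 + (2 * N / 1.1) * g1 := by positivity
      have : (2.6 * N * G) ^ 2 ≤ (g2 + (2 * N / 1.1) * g1) ^ 2 := by
        have a1 : (2.6 * N * G) ^ 2 = 6.76 * N ^ 2 * (g1 ^ 2 + g2 ^ 2) := by
          rw [← hGs]; ring
        have a2 : N ^ 2 ≤ 25 / 169 := by nlinarith
        have a3 : 0 ≤ (1 - 6.76 * N ^ 2) * g2 ^ 2 := mul_nonneg (by linarith) (sq_nonneg _)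
        have a4 : N * g1 * (N * g1) ≤ N * g1 * g2 := mul_le_mul_of_nonneg_left hB (by positivity)
        have a5 : 0 ≤ (N * g1) ^ 2 := sq_nonneg _
        rw [a1]
        have a6 : (g2 + (2 * N / 1.1) * g1) ^ 2 =
          g2 ^ 2 + (4 / 1.1) * (N * g1 * g2) + (4 / 1.21) * (N * g1) ^ 2 := by ring
        rw [a6]
        nlinarith
      exact abs_le_of_sq_le_sq' this hp |>.2
    have e6 : N * (2.6 * N * G) ≤ N * (g2 + (2 * N / 1.1) * g1) :=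
      mul_le_mul_of_nonneg_left e5 hN
    have e7 : G - N * (2.6 * N * G) + (N / 2.2) * (4.21 - G ^ 2 - 4 * N ^ 2) ≤
        0.7072 - N * (2.6 * N * 0.7072) + (N / 2.2) * (4.21 - 0.7072 ^ 2 - 4 * N ^ 2) := by
      have b1 : 0 ≤ 1 - 2.6 * N ^ 2 - (N / 2.2) * (0.7072 + G) := by
        have a2 : N ^ 2 ≤ 25 / 169 := by nlinarith
        have a3 : N * (0.7072 + G) ≤ (5 / 13) * (0.7072 + 0.7072) := by
          apply mul_le_mul hc (by linarith) (by positivity) (by norm_num)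
        have a4 : (N / 2.2) * (0.7072 + G) = N * (0.7072 + G) / 2.2 := by ring
        have a5 : N * (0.7072 + G) / 2.2 ≤ 0.25 := by
          rw [div_le_iff₀ (by norm_num)]
          linarith
        rw [a4]
        linarith
      have b2 : 0 ≤ (0.7072 - G) * (1 - 2.6 * N ^ 2 - (N / 2.2) * (0.7072 + G)) :=
        mul_nonneg (by linarith) b1
      have b3 : 0.7072 - N * (2.6 * N * 0.7072) + (N / 2.2) * (4.21 - 0.7072 ^ 2 - 4 * N ^ 2) -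
        (G - N * (2.6 * N * G) + (N / 2.2) * (4.21 - G ^ 2 - 4 * N ^ 2)) =
        (0.7072 - G) * (1 - 2.6 * N ^ 2 - (N / 2.2) * (0.7072 + G)) := by ring
      linarith
    have e8 : 0.7072 - N * (2.6 * N * 0.7072) + (N / 2.2) * (4.21 - 0.7072 ^ 2 - 4 * N ^ 2) ≤
        1.01 := by
      have c1 : 0 ≤ (N - 313 / 1000) ^ 2 * (N + 3 / 2) := by positivity
      have c2 : 0 ≤ (N - 313 / 1000) ^ 2 := sq_nonneg _
      have c3 : 0.7072 - N * (2.6 * N * 0.7072) + (N / 2.2) * (4.21 - 0.7072 ^ 2 - 4 * N ^ 2) =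
        (442/625) + (5796669/3437500) * N + (-5746/3125) * N ^ 2 + (-20/11) * N ^ 3 := by ring
      rw [c3, show (1.01 : ℝ) = 101 / 100 by norm_num]
      nlinarith
    linarith
  · -- N ≥ 5/13
    have e5 : G ≤ g2 + (2 * N / 1.1) * g1 := by
      have hp : 0 ≤ g2 + (2 * N / 1.1) * g1 := by positivity
      have : G ^ 2 ≤ (g2 + (2 * N / 1.1) * g1) ^ 2 := by
        have a2 : 25 / 169 ≤ N ^ 2 := by nlinarith
        have a4 : N * g1 * (N * g1) ≤ N * g1 * g2 := mul_le_mul_of_nonneg_left hB (by positivity)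
        have a5 : 25 / 169 * g1 ^ 2 ≤ (N * g1) ^ 2 := by
          rw [mul_pow]
          exact mul_le_mul_of_nonneg_right a2 (sq_nonneg _)
        have a6 : (g2 + (2 * N / 1.1) * g1) ^ 2 =
          g2 ^ 2 + (4 / 1.1) * (N * g1 * g2) + (4 / 1.21) * (N * g1) ^ 2 := by ring
        rw [a6, hGs]
        nlinarith [sq_nonneg g1]
      exact abs_le_of_sq_le_sq' this hp |>.2
    have e6 : N * G ≤ N * (g2 + (2 * N / 1.1) * g1) :=
      mul_le_mul_of_nonneg_left e5 hN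
    have e7 : G - N * G + (N / 2.2) * (4.21 - G ^ 2 - 4 * N ^ 2) ≤
        0.7072 - N * 0.7072 + (N / 2.2) * (4.21 - 0.7072 ^ 2 - 4 * N ^ 2) := by
      have b1 : 0 ≤ 1 - N - (N / 2.2) * (0.7072 + G) := by
        have a3 : N * (0.7072 + G) ≤ (1 / 2) * (0.7072 + 0.7072) := by
          apply mul_le_mul hN2 (by linarith) (by positivity) (by norm_num)
        have a4 : (N / 2.2) * (0.7072 + G) = N * (0.7072 + G) / 2.2 := by ring
        have a5 : N * (0.7072 + G) / 2.2 ≤ 0.4 := by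
          rw [div_le_iff₀ (by norm_num)]
          linarith
        rw [a4]
        linarith
      have b2 : 0 ≤ (0.7072 - G) * (1 - N - (N / 2.2) * (0.7072 + G)) :=
        mul_nonneg (by linarith) b1
      have b3 : 0.7072 - N * 0.7072 + (N / 2.2) * (4.21 - 0.7072 ^ 2 - 4 * N ^ 2) -
        (G - N * G + (N / 2.2) * (4.21 - G ^ 2 - 4 * N ^ 2)) =
        (0.7072 - G) * (1 - N - (N / 2.2) * (0.7072 + G)) := by ring
      linarith
    have e8 : 0.7072 - N * 0.7072 + (N / 2.2) * (4.21 - 0.7072 ^ 2 - 4 * N ^ 2) ≤ 1.01 := by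
      have c1 : 0 ≤ (N - 53 / 125) ^ 2 * (N + 106 / 125) := by positivity
      have c2 : 0 ≤ (N - 53 / 125) ^ 2 := sq_nonneg _
      have c3 : 0.7072 - N * 0.7072 + (N / 2.2) * (4.21 - 0.7072 ^ 2 - 4 * N ^ 2) =
        (442/625) + (3365669/3437500) * N + (-20/11) * N ^ 3 := by ring
      rw [c3, show (1.01 : ℝ) = 101 / 100 by norm_num]
      nlinarith
    linarith

theorem thm : Pool.Agent.Helper89.Vol4.G_J3 := by
  intro N k M g1 g2 S hN hN2 hk hM hg1 hg2 hS h1 h2 h3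
  obtain ⟨M0, hM0, hM0s⟩ : ∃ M0 : ℝ, 0 < M0 ∧ M0 ^ 2 = 1 - N ^ 2 := by
    have : 0 < 1 - N ^ 2 := by nlinarith
    exact ⟨√(1 - N ^ 2), Real.sqrt_pos.mpr this, Real.sq_sqrt this.le⟩
  rcases le_total (M0 * g2) (N * g1) with hA | hB
  · exact caseA N k M g1 g2 S M0 hN hN2 hk hM hg1 hg2 hS h1 h2 h3 hM0 hM0s hA
  · refine caseB N k M g1 g2 S hN hN2 hk hM hg1 hg2 hS h1 h2 h3 ?_
    have hM01 : M0 ≤ 1 := by
      by_contra hc
      push Not at hc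
      nlinarith [sq_nonneg N]
    calc N * g1 ≤ M0 * g2 := hB
      _ ≤ 1 * g2 := mul_le_mul_of_nonneg_right hM01 hg2
      _ = g2 := one_mul _

end Pool.Agent.Helper85.Vol4.PkJ3
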